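import Pool.Agent.Q19.EdgeCovE

set_option autoImplicit false

open Classical

/-!
# MP_2a9600_co: edge cover polynomials at minimum degree two

Every connected graph with minimum degree two, except the triangle, has an edge cover polynomial
with at least three distinct complex roots.
-/

namespace Pool.Agent.Results.MP_2a9600_co.ThreeRoots

open Polynomial Pool.Agent.Q19.EdgeCov

/-- `S` is an edge covering set of `G`: a set of edges such that every vertex is an endpoint of
one of them. -/
def IsEdgeCover {V : Type*} (G : SimpleGraph V) (S : Finset (Sym2 V)) : Prop :=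
  (∀ e ∈ S, e ∈ G.edgeSet) ∧ ∀ v : V, ∃ e ∈ S, v ∈ e

/-- `e(G, i)`: the number of edge covering sets with exactly `i` edges. -/
noncomputable def coverCount {V : Type*} (G : SimpleGraph V) (i : ℕ) : ℕ :=
  {S : Finset (Sym2 V) | IsEdgeCover G S ∧ S.card = i}.ncard

/-- The edge cover polynomial `E(G, x) = ∑_{i = 0}^{|E|} e(G, i) x ^ i`. -/
noncomputable def edgeCoverPoly {V : Type*} (G : SimpleGraph V) : ℂ[X] :=
  ∑ i ∈ Finset.range (G.edgeSet.ncard + 1), C (coverCount G i : ℂ) * X ^ i

variable {V : Type*} [Fintype V]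

theorem mem_cov (G : SimpleGraph V) (S : Finset (Sym2 V)) : S ∈ cov G ↔ IsEdgeCover G S := by
  unfold cov IsEdgeCover
  rw [Finset.mem_filter, Finset.mem_powerset]
  refine and_congr ?_ Iff.rfl
  constructor
  · intro h e he
    simpa using h he
  · intro h e he
    simpa using h e he

theorem coverCount_eq (G : SimpleGraph V) (i : ℕ) : coverCount G i = num G i := by
  unfold coverCount num
  rw [← Set.ncard_coe_finset]
  congr 1
  ext S
  simp [mem_cov]

theorem edgeSet_ncard (G : SimpleGraph V) : G.edgeSet.ncard = G.edgeFinset.card := by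
  rw [← SimpleGraph.coe_edgeFinset, Set.ncard_coe_finset]

theorem coeff_poly (G : SimpleGraph V) (i : ℕ) : (edgeCoverPoly G).coeff i = (num G i : ℂ) := by
  unfold edgeCoverPoly
  simp only [finset_sum_coeff, coeff_C_mul, coeff_X_pow, coverCount_eq]
  rw [edgeSet_ncard]
  by_cases hi : i ∈ Finset.range (G.edgeFinset.card + 1)
  · rw [Finset.sum_eq_single i]
    · simp
    · intro j _ hj
      simp [hj.symm]
    · intro h
      exact absurd hi h
  · rw [Finset.sum_eq_zero]
    · have : num G i = 0 := by
        unfold num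
        rw [Finset.card_eq_zero, Finset.filter_eq_empty_iff]
        intro S hS hcard
        have h1 := Finset.card_le_card (Finset.mem_powerset.1 (Finset.mem_filter.1 hS).1)
        rw [Finset.mem_range] at hi
        omega
      rw [this]
      simp
    · intro j hj
      have : i ≠ j := by
        rintro rfl
        exact hi hj
      simp [this]

theorem eval_one (G : SimpleGraph V) : (edgeCoverPoly G).eval 1 = ((cov G).card : ℂ) := by
  unfold edgeCoverPoly
  rw [edgeSet_ncard]
  simp only [eval_finset_sum, eval_mul, eval_C, eval_pow, eval_X, one_pow, mul_one, coverCount_eq]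
  rw [← Nat.cast_sum]
  congr 1
  unfold num
  symm
  apply Finset.card_eq_sum_card_fiberwise
  intro S hS
  have h1 := Finset.card_le_card (Finset.mem_powerset.1
    (Finset.mem_filter.1 (Finset.mem_coe.1 hS)).1)
  simp only [Finset.coe_range, Set.mem_Iio]
  omega

theorem natDegree_poly {G : SimpleGraph V} (hdeg : ∀ v, 2 ≤ G.degree v) :
    (edgeCoverPoly G).natDegree = G.edgeFinset.card := by
  apply le_antisymm
  · rw [Polynomial.natDegree_le_iff_coeff_eq_zero]
    intro N hN
    rw [coeff_poly]
    have : num G N = 0 := by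
      unfold num
      rw [Finset.card_eq_zero, Finset.filter_eq_empty_iff]
      intro S hS hcard
      have h1 := Finset.card_le_card (Finset.mem_powerset.1 (Finset.mem_filter.1 hS).1)
      omega
    rw [this]
    simp
  · apply Polynomial.le_natDegree_of_ne_zero
    rw [coeff_poly, num_zero hdeg]
    simp

theorem monic_poly {G : SimpleGraph V} (hdeg : ∀ v, 2 ≤ G.degree v) :
    (edgeCoverPoly G).Monic := by
  unfold Polynomial.Monic Polynomial.leadingCoeff
  rw [natDegree_poly hdeg, coeff_poly, num_zero hdeg]
  simp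

/-- A monic complex polynomial vanishing at `0` with at most two distinct roots. -/
theorem two_roots (P : ℂ[X]) (hP : P.Monic) (h0 : P.eval 0 = 0)
    (h2 : {z : ℂ | P.eval z = 0}.ncard ≤ 2) :
    ∃ (b : ℂ) (a c : ℕ), b ≠ 0 ∧ P = X ^ a * (X + C b) ^ c := by
  have hP0 : P ≠ 0 := hP.ne_zero
  have hset : {z : ℂ | P.eval z = 0} = (P.roots.toFinset : Set ℂ) := by
    ext z
    simp [hP0]
  rw [hset, Set.ncard_coe_finset] at h2
  have h0m : (0 : ℂ) ∈ P.roots.toFinset := by
    simp [hP0, h0]
  have hex : ∃ b : ℂ, b ≠ 0 ∧ P.roots.toFinset ⊆ {0, -b} := by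
    have h3 : (P.roots.toFinset.erase 0).card ≤ 1 := by
      rw [Finset.card_erase_of_mem h0m]
      omega
    rcases Finset.card_le_one_iff_subset_singleton.1 h3 with ⟨x, hx⟩
    by_cases hx0 : x = 0
    · refine ⟨1, one_ne_zero, ?_⟩
      intro y hy
      by_cases hy0 : y = 0
      · simp [hy0]
      · have := hx (Finset.mem_erase.2 ⟨hy0, hy⟩)
        rw [Finset.mem_singleton] at this
        exact absurd (this.trans hx0) hy0
    · refine ⟨-x, neg_ne_zero.2 hx0, ?_⟩
      intro y hy
      by_cases hy0 : y = 0
      · simp [hy0]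
      · have := hx (Finset.mem_erase.2 ⟨hy0, hy⟩)
        rw [Finset.mem_singleton] at this
        simp [this]
  obtain ⟨b, hb, hsub⟩ := hex
  refine ⟨b, P.roots.count 0, P.roots.count (-b), hb, ?_⟩
  have hprod : (P.roots.map (fun a => X - C a)).prod = P := by
    have hs := IsAlgClosed.splits P
    have := hs.eq_prod_roots
    rw [hP.leadingCoeff, C_1, one_mul] at this
    exact this.symm
  have hne : (0 : ℂ) ≠ -b := by
    intro h
    exact hb (by rw [← neg_eq_zero, ← h])
  conv_lhs => rw [← hprod]
  rw [Finset.prod_multiset_map_count, Finset.prod_subset hsub, Finset.prod_pair hne]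
  · simp
  · intro x _ hx
    have : P.roots.count x = 0 := by
      rw [Multiset.count_eq_zero]
      intro h
      exact hx (Multiset.mem_toFinset.2 h)
    rw [this, pow_zero]

theorem coeff_top (b : ℂ) (a c m : ℕ) (hm : a + c = m) (j : ℕ) (hj : j ≤ m) :
    (X ^ a * (X + C b) ^ c : ℂ[X]).coeff (m - j) = b ^ j * (c.choose j : ℂ) := by
  by_cases hjc : j ≤ c
  · have h1 : m - j = (c - j) + a := by omega
    rw [h1, coeff_X_pow_mul, coeff_X_add_C_pow, Nat.choose_symm hjc]
    congr 2
    omega
  · rw [Nat.choose_eq_zero_of_lt (by omega)]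
    rw [coeff_X_pow_mul']
    rw [if_neg (by omega)]
    simp

theorem edge_card_ge {G : SimpleGraph V} (hdeg : ∀ v, 2 ≤ G.degree v) :
    Fintype.card V ≤ G.edgeFinset.card := by
  have h1 : 2 * Fintype.card V ≤ ∑ v, G.degree v := by
    rw [mul_comm, ← smul_eq_mul, ← Finset.card_univ, ← Finset.sum_const]
    exact Finset.sum_le_sum (fun v _ => hdeg v)
  rw [SimpleGraph.sum_degrees_eq_twice_card_edges] at h1
  omega

theorem core (G : SimpleGraph V) (hc : G.Connected) (hdeg : ∀ v, 2 ≤ G.degree v)
    (hlow : ∃ v, G.degree v = 2) (h2 : {z : ℂ | (edgeCoverPoly G).eval z = 0}.ncard ≤ 2) :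
    Fintype.card V = 3 := by
  have hne := hc.nonempty
  have hn3 := card_ge_three hdeg
  have hnm := edge_card_ge hdeg
  set m := G.edgeFinset.card with hm
  set n2 := (Finset.univ.filter (fun v => G.degree v = 2)).card with hn2
  have hn2pos : 1 ≤ n2 := by
    obtain ⟨v, hv⟩ := hlow
    exact Finset.card_pos.2 ⟨v, by simpa using hv⟩
  have hn2le : n2 ≤ Fintype.card V := by
    rw [hn2, ← Finset.card_univ]
    exact Finset.card_filter_le _ _
  have hcov0 : ∀ S ∈ cov G, 1 ≤ S.card := by
    intro S hS
    obtain ⟨v⟩ := hne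
    obtain ⟨e, he, _⟩ := (Finset.mem_filter.1 hS).2 v
    exact Finset.card_pos.2 ⟨e, he⟩
  have h0 : (edgeCoverPoly G).eval 0 = 0 := by
    rw [← coeff_zero_eq_eval_zero, coeff_poly]
    have : num G 0 = 0 := by
      unfold num
      rw [Finset.card_eq_zero, Finset.filter_eq_empty_iff]
      intro S hS hcard
      have := hcov0 S hS
      omega
    rw [this]
    simp
  obtain ⟨b, a, c, hb, hP⟩ := two_roots _ (monic_poly hdeg) h0 h2
  have hac : a + c = m := by
    have h3 := natDegree_poly hdeg
    rw [hP, natDegree_mul (pow_ne_zero _ X_ne_zero) (pow_ne_zero _ (X_add_C_ne_zero b)),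
      natDegree_pow, natDegree_X, natDegree_pow, natDegree_X_add_C] at h3
    omega
  have hm1 : b * c = m := by
    have h3 := coeff_poly G (m - 1)
    rw [num_one hdeg (by omega), hP, coeff_top b a c m hac 1 (by omega)] at h3
    simpa using h3
  have hm2 : b ^ 2 * (c.choose 2 : ℂ) + n2 = (m.choose 2 : ℂ) := by
    have h3 := coeff_poly G (m - 2)
    rw [hP, coeff_top b a c m hac 2 (by omega)] at h3
    have h4 := num_two hdeg (show 2 ≤ G.edgeFinset.card by omega)
    rw [h3]
    rw [← hm, ← hn2] at h4
    exact_mod_cast h4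
  rw [Nat.cast_choose_two, Nat.cast_choose_two] at hm2
  have hmpos : (m : ℂ) ≠ 0 := by
    have : m ≠ 0 := by omega
    exact_mod_cast this
  have hbm : b * m = m + 2 * n2 := by
    have h5 : (b * c) ^ 2 - b * (b * c) + 2 * n2 = (m : ℂ) ^ 2 - m := by
      linear_combination 2 * hm2
    rw [hm1] at h5
    linear_combination -h5
  -- the lowest coefficient
  have hlowc : b ^ c = (num G a : ℂ) := by
    have h3 := coeff_poly G a
    rw [hP] at h3
    have h4 : (X ^ a * (X + C b) ^ c : ℂ[X]).coeff (0 + a) = b ^ c := by
      rw [coeff_X_pow_mul, coeff_X_add_C_pow]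
      simp
    rw [zero_add] at h4
    rw [← h3, h4]
  have hc0 : c ≠ 0 := by
    rintro rfl
    simp at hm1
    exact hmpos hm1.symm
  have hdvd : m ∣ m + 2 * n2 := by
    rw [← Nat.pow_dvd_pow_iff hc0]
    refine ⟨num G a, ?_⟩
    have : ((m : ℂ) + 2 * n2) ^ c = (m : ℂ) ^ c * (num G a : ℂ) := by
      rw [← hbm, mul_pow, hlowc]
      ring
    exact_mod_cast this
  have hsmall : ∀ S ∈ cov G, a ≤ S.card := by
    intro S hS
    by_contra hlt
    push Not at hlt
    have h3 := coeff_poly G S.card
    rw [hP, coeff_X_pow_mul', if_neg (by omega)] at h3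
    have h4 : num G S.card = 0 := by exact_mod_cast h3.symm
    unfold num at h4
    rw [Finset.card_eq_zero, Finset.filter_eq_empty_iff] at h4
    exact h4 hS rfl
  have hcount : ((cov G).card : ℂ) = (1 + b) ^ c := by
    rw [← eval_one, hP]
    simp
  obtain ⟨t, ht⟩ := (Nat.dvd_add_right (dvd_refl m)).1 hdvd
  have ht12 : t = 1 ∨ t = 2 := by
    have h1 : t ≠ 0 := by
      rintro rfl
      omega
    have h2 : t < 3 := by
      by_contra hcon
      push Not at hcon
      have := Nat.mul_le_mul_left m hcon
      omega
    omega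
  rcases ht12 with rfl | rfl
  · exfalso
    have hb2 : b = 2 := by
      have h1 : (2 : ℂ) * n2 = m := by
        have : 2 * n2 = m := by omega
        exact_mod_cast this
      rw [h1] at hbm
      have : (b - 2) * m = 0 := by linear_combination hbm
      rcases mul_eq_zero.1 this with h | h
      · linear_combination h
      · exact absurd h hmpos
    have hc2 : c = n2 := by
      rw [hb2] at hm1
      have : 2 * c = m := by exact_mod_cast hm1
      omega
    have ha2 : a = n2 := by omega
    have h1 := case2 hc hdeg (by rw [← hn2, ← hm]; omega) (by rw [← hn2, ← ha2]; exact hsmall)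
    rw [← hn2] at h1
    have h2 : (cov G).card = 3 ^ n2 := by
      rw [hb2, hc2] at hcount
      have h3 : ((1 : ℂ) + 2) = ((3 : ℕ) : ℂ) := by norm_num
      rw [h3] at hcount
      exact_mod_cast hcount
    omega
  · have hb3 : b = 3 := by
      have h1 : (2 : ℂ) * n2 = m * 2 := by
        exact_mod_cast ht
      rw [h1] at hbm
      have : (b - 3) * m = 0 := by linear_combination hbm
      rcases mul_eq_zero.1 this with h | h
      · linear_combination h
      · exact absurd h hmpos
    have hc3 : 3 * c = m := by
      rw [hb3] at hm1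
      exact_mod_cast hm1
    exact case3 hc hdeg (by rw [← hm]; omega) c (by rw [← hm]; omega)
      (fun S hS => by
        have := hsmall S hS
        omega)

/-- Every connected graph of minimum degree two that is not a triangle has an edge cover
polynomial with at least three distinct complex roots. -/
theorem result {V : Type*} [Fintype V] (G : SimpleGraph V) (hconn : G.Connected)
    (hmin : G.minDegree = 2) (hK3 : IsEmpty (G ≃g (⊤ : SimpleGraph (Fin 3)))) :
    3 ≤ {z : ℂ | (edgeCoverPoly G).eval z = 0}.ncard := by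
  by_contra hcon
  have hne := hconn.nonempty
  have hdeg : ∀ v, 2 ≤ G.degree v := fun v => hmin ▸ G.minDegree_le_degree v
  obtain ⟨v, hv⟩ := G.exists_minimal_degree_vertex
  have h3 := core G hconn hdeg ⟨v, by rw [← hv, hmin]⟩ (by omega)
  have htop : G = ⊤ := by
    ext x y
    rw [SimpleGraph.top_adj]
    constructor
    · exact fun h => h.ne
    · intro hxy
      have h1 := hdeg x
      rw [← SimpleGraph.card_neighborFinset_eq_degree] at h1
      have h2 : G.neighborFinset x ⊆ Finset.univ.erase x := by
        intro z hz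
        rw [SimpleGraph.mem_neighborFinset] at hz
        exact Finset.mem_erase.2 ⟨hz.ne.symm, Finset.mem_univ _⟩
      have h4 := Finset.eq_of_subset_of_card_le h2 (by
        rw [Finset.card_erase_of_mem (Finset.mem_univ _), Finset.card_univ, h3]
        exact h1)
      have h5 : y ∈ Finset.univ.erase x := Finset.mem_erase.2 ⟨hxy.symm, Finset.mem_univ _⟩
      rw [← h4] at h5
      simpa using h5
  subst htop
  exact hK3.false (SimpleGraph.Iso.completeGraph (Fintype.equivFinOfCardEq h3))

end Pool.Agent.Results.MP_2a9600_co.ThreeRoots
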